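import Mathlib

/-!
# Unions of FC[REG] conjunctive queries (MP_c07d1e)

The languages of FC[REG]-CQs are closed under union.
-/

set_option autoImplicit false

namespace Pool.Agent.Results.MP_c07d1e_lc.UnionClosure

variable {A : Type}

/-- The value of a pattern (a word over letters `Sum.inl a` and variables `Sum.inr x`, the
variables being natural numbers) under the substitution `σ`. -/
def value (σ : ℕ → List A) (α : List (A ⊕ ℕ)) : List A :=
  α.flatMap (Sum.elim (fun a => [a]) σ)

/-- An FC[REG]-CQ: a conjunction of equations `x ≐ α` and of regular constraints `y ∈ γ`. The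
universe variable is `0`. -/
structure CQ (A : Type) where
  /-- the equations -/
  eqs : List (ℕ × List (A ⊕ ℕ))
  /-- the regular constraints -/
  regs : List (ℕ × RegularExpression A)

/-- The substitution `σ` is safe (every variable is mapped to a factor of the value of the
universe variable) and satisfies the query `φ`. -/
def Sat (σ : ℕ → List A) (φ : CQ A) : Prop :=
  (∀ x, σ x <:+: σ 0) ∧ (∀ e ∈ φ.eqs, σ e.1 = value σ e.2) ∧
    ∀ c ∈ φ.regs, σ c.1 ∈ c.2.matches'

/-- The language of an FC[REG]-CQ. -/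
def cqLang (φ : CQ A) : Language A := {w | ∃ σ : ℕ → List A, Sat σ φ ∧ σ 0 = w}

/-- The language of an FC[REG]-UCQ, given by the list of its members. -/
def ucqLang (Φ : List (CQ A)) : Language A := {w | ∃ φ ∈ Φ, w ∈ cqLang φ}

/-! ### Expressible relations -/

/-- The relation `R` on the values of the variables `X` is expressible over the universe
variable `w`. -/
def Ex {X : Type} (w : X) (R : (X → List A) → Prop) : Prop :=
  ∃ (V : Type) (_ : Finite V) (E : Set ((X ⊕ V) × List (X ⊕ V)))
    (C : Set ((X ⊕ V) × RegularExpression A)), E.Finite ∧ C.Finite ∧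
    ∀ τ : X → List A, (∀ x, τ x <:+: τ w) → (R τ ↔ ∃ σ : V → List A, (∀ v, σ v <:+: τ w) ∧
      (∀ e ∈ E, Sum.elim τ σ e.1 = e.2.flatMap (Sum.elim τ σ)) ∧
      ∀ c ∈ C, Sum.elim τ σ c.1 ∈ c.2.matches')

theorem Ex.congr {X : Type} {w : X} {R R' : (X → List A) → Prop} (h : Ex w R)
    (h2 : ∀ τ : X → List A, (∀ x, τ x <:+: τ w) → (R' τ ↔ R τ)) : Ex w R' := by
  obtain ⟨V, hV, E, C, hE, hC, h⟩ := h
  exact ⟨V, hV, E, C, hE, hC, fun τ hτ => (h2 τ hτ).trans (h τ hτ)⟩

theorem Ex.eq {X : Type} (w x : X) (l : List X) :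
    Ex w (fun τ : X → List A => τ x = l.flatMap τ) := by
  refine ⟨Empty, inferInstance, {(Sum.inl x, l.map Sum.inl)}, ∅, Set.finite_singleton _,
    Set.finite_empty, fun τ _ => ?_⟩
  constructor
  · intro h
    refine ⟨Empty.elim, fun v => v.elim, ?_, by simp⟩
    rintro e rfl
    simpa [List.flatMap_map] using h
  · rintro ⟨σ, -, h, -⟩
    have := h _ rfl
    simpa [List.flatMap_map] using this

theorem Ex.reg {X : Type} (w x : X) (P : RegularExpression A) :
    Ex w (fun τ : X → List A => τ x ∈ P.matches') := by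
  refine ⟨Empty, inferInstance, ∅, {(Sum.inl x, P)}, Set.finite_empty, Set.finite_singleton _,
    fun τ _ => ?_⟩
  constructor
  · intro h
    refine ⟨Empty.elim, fun v => v.elim, by simp, ?_⟩
    rintro e rfl
    exact h
  · rintro ⟨σ, -, -, h⟩
    exact h _ rfl

theorem Ex.all {X ι : Type} [Finite ι] {w : X} {R : ι → (X → List A) → Prop}
    (h : ∀ i, Ex w (R i)) : Ex w (fun τ => ∀ i, R i τ) := by
  choose V hV E C hE hC h using h
  have hV2 : ∀ i, Finite (V i) := hV
  let g : ∀ i, X ⊕ V i → X ⊕ (Σ i, V i) := fun i => Sum.map id (Sigma.mk i)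
  have hg : ∀ (τ : X → List A) (σ : (Σ i, V i) → List A) (i : ι) (z : X ⊕ V i),
      Sum.elim τ σ (g i z) = Sum.elim τ (fun v => σ ⟨i, v⟩) z := by
    intro τ σ i z
    cases z <;> rfl
  refine ⟨Σ i, V i, inferInstance, ⋃ i, (fun e => (g i e.1, e.2.map (g i))) '' E i,
    ⋃ i, (fun c => (g i c.1, c.2)) '' C i, Set.finite_iUnion fun i => (hE i).image _,
    Set.finite_iUnion fun i => (hC i).image _, fun τ hτ => ?_⟩
  constructor
  · intro h1
    have h2 := fun i => (h i τ hτ).1 (h1 i)
    choose σ h3 h4 h5 using h2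
    refine ⟨fun v => σ v.1 v.2, fun v => h3 _ _, ?_, ?_⟩
    · intro e he
      obtain ⟨i, e, he', rfl⟩ := Set.mem_iUnion.1 he
      simp only [List.flatMap_map, hg]
      exact h4 i e he'
    · intro c hc
      obtain ⟨i, c, hc', rfl⟩ := Set.mem_iUnion.1 hc
      simp only [hg]
      exact h5 i c hc'
  · rintro ⟨σ, h3, h4, h5⟩ i
    refine (h i τ hτ).2 ⟨fun v => σ ⟨i, v⟩, fun v => h3 _, ?_, ?_⟩
    · intro e he
      have := h4 _ (Set.mem_iUnion.2 ⟨i, e, he, rfl⟩)
      simp only [List.flatMap_map, hg] at this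
      exact this
    · intro c hc
      have := h5 _ (Set.mem_iUnion.2 ⟨i, c, hc, rfl⟩)
      simp only [hg] at this
      exact this

theorem Ex.and {X : Type} {w : X} {R R' : (X → List A) → Prop} (h : Ex w R) (h' : Ex w R') :
    Ex w (fun τ => R τ ∧ R' τ) := by
  have := Ex.all (ι := Bool) (w := w) (R := fun b => if b then R else R')
    (by intro b; cases b <;> simpa)
  refine this.congr fun τ _ => ?_
  constructor
  · rintro ⟨h1, h2⟩ b
    cases b
    · exact h2
    · exact h1
  · intro h
    exact ⟨h true, h false⟩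

theorem Ex.ex {X Y : Type} [Finite Y] {w : X} {R : (X ⊕ Y → List A) → Prop}
    (h : Ex (Sum.inl w) R) :
    Ex w (fun τ => ∃ ρ : Y → List A, (∀ y, ρ y <:+: τ w) ∧ R (Sum.elim τ ρ)) := by
  obtain ⟨V, hV, E, C, hE, hC, h⟩ := h
  let g : (X ⊕ Y) ⊕ V → X ⊕ (Y ⊕ V) := Equiv.sumAssoc X Y V
  have hg : ∀ (τ : X → List A) (ρ : Y → List A) (σ : V → List A) (z : (X ⊕ Y) ⊕ V),
      Sum.elim τ (Sum.elim ρ σ) (g z) = Sum.elim (Sum.elim τ ρ) σ z := by
    intro τ ρ σ z
    rcases z with (z | z) | z <;> rfl
  refine ⟨Y ⊕ V, inferInstance, (fun e => (g e.1, e.2.map g)) '' E,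
    (fun c => (g c.1, c.2)) '' C, hE.image _, hC.image _, fun τ hτ => ?_⟩
  constructor
  · rintro ⟨ρ, h1, h2⟩
    obtain ⟨σ, h3, h4, h5⟩ := (h (Sum.elim τ ρ) (by rintro (x | y); exacts [hτ x, h1 y])).1 h2
    refine ⟨Sum.elim ρ σ, by rintro (y | v); exacts [h1 y, h3 v], ?_, ?_⟩
    · rintro _ ⟨e, he, rfl⟩
      simp only [List.flatMap_map, hg]
      exact h4 e he
    · rintro _ ⟨c, hc, rfl⟩
      simp only [hg]
      exact h5 c hc
  · rintro ⟨σ, h3, h4, h5⟩
    have hs : σ = Sum.elim (fun y => σ (Sum.inl y)) (fun v => σ (Sum.inr v)) := by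
      funext z
      cases z <;> rfl
    refine ⟨fun y => σ (Sum.inl y), fun y => h3 _, ?_⟩
    refine (h _ (by rintro (x | y); exacts [hτ x, h3 _])).2
      ⟨fun v => σ (Sum.inr v), fun v => h3 _, ?_, ?_⟩
    · intro e he
      have := h4 _ ⟨e, he, rfl⟩
      rw [hs] at this
      simp only [List.flatMap_map, hg] at this
      exact this
    · intro c hc
      have := h5 _ ⟨c, hc, rfl⟩
      rw [hs] at this
      simp only [hg] at this
      exact this

/-! ### Some regular languages -/

/-- given by a regular expression -/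
def RE (L : Language A) : Prop := ∃ P : RegularExpression A, P.matches' = L

theorem RE.add {L M : Language A} (h : RE L) (h' : RE M) : RE (L + M) := by
  obtain ⟨P, rfl⟩ := h
  obtain ⟨Q, rfl⟩ := h'
  exact ⟨P + Q, rfl⟩

theorem RE.mul {L M : Language A} (h : RE L) (h' : RE M) : RE (L * M) := by
  obtain ⟨P, rfl⟩ := h
  obtain ⟨Q, rfl⟩ := h'
  exact ⟨P * Q, rfl⟩

theorem RE.star {L : Language A} (h : RE L) : RE (KStar.kstar L) := by
  obtain ⟨P, rfl⟩ := h
  exact ⟨P.star, rfl⟩

theorem RE.word (w : List A) : RE ({w} : Language A) := by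
  induction w with
  | nil => exact ⟨1, rfl⟩
  | cons a w ih =>
    have h : ({a :: w} : Language A) = {[a]} * {w} := by
      ext x
      constructor
      · rintro rfl
        exact ⟨[a], rfl, w, rfl, rfl⟩
      · rintro ⟨_, rfl, _, rfl, rfl⟩
        rfl
    rw [h]
    exact RE.mul ⟨.char a, rfl⟩ ih

theorem RE.fin {L : Set (List A)} (h : L.Finite) : RE (L : Language A) := by
  induction L, h using Set.Finite.induction_on with
  | empty => exact ⟨0, rfl⟩
  | @insert a s _ _ ih => exact (RE.word a).add ih

/-- words of length `n` -/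
def lenL (A : Type) (n : ℕ) : Language A := {x | x.length = n}

/-- words of length at most one -/
def leL (A : Type) : Language A := {x | x.length ≤ 1}

/-- words of even length -/
def evenL (A : Type) : Language A := {x | Even x.length}

/-- the empty word and the words of odd length -/
def oddL (A : Type) : Language A := {x | x = [] ∨ Odd x.length}

theorem mem_lenL {n : ℕ} {x : List A} : x ∈ lenL A n ↔ x.length = n := Iff.rfl

theorem mem_leL {x : List A} : x ∈ leL A ↔ x.length ≤ 1 := Iff.rfl

theorem mem_evenL {x : List A} : x ∈ evenL A ↔ Even x.length := Iff.rfl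

theorem mem_oddL {x : List A} : x ∈ oddL A ↔ (x = [] ∨ Odd x.length) := Iff.rfl

theorem Ex.lang {X : Type} (w x : X) {L : Language A} (h : RE L) :
    Ex w (fun τ : X → List A => τ x ∈ L) := by
  obtain ⟨P, rfl⟩ := h
  exact Ex.reg w x P

variable [Finite A]

theorem re_len (n : ℕ) : RE (lenL A n) := RE.fin (List.finite_length_eq A n)

theorem re_le : RE (leL A) := RE.fin (List.finite_length_le A 1)

theorem re_even : RE (evenL A) := by
  suffices he : evenL A = KStar.kstar (lenL A 2) by
    rw [he]; exact (re_len 2).star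
  ext x
  constructor
  · intro hx
    have hx : Even x.length := hx
    rw [Language.mem_kstar]
    obtain ⟨n, hn⟩ := hx
    induction n generalizing x with
    | zero =>
      have : x = [] := List.length_eq_zero_iff.1 (by omega)
      exact ⟨[], by simp [this], by simp⟩
    | succ n ih =>
      obtain ⟨S, h1, h2⟩ := ih (x.drop 2) ⟨n, by rw [List.length_drop]; omega⟩
        (by rw [List.length_drop]; omega)
      refine ⟨x.take 2 :: S, ?_, ?_⟩
      · rw [List.flatten_cons, ← h1, List.take_append_drop]
      · intro y hy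
        rcases List.mem_cons.1 hy with rfl | hy
        · change (x.take 2).length = 2
          rw [List.length_take]
          omega
        · exact h2 y hy
  · intro hx
    rw [Language.mem_kstar] at hx
    obtain ⟨S, rfl, h2⟩ := hx
    change Even S.flatten.length
    induction S with
    | nil => simp
    | cons y S ih =>
      rw [List.flatten_cons, List.length_append]
      have h3 : y.length = 2 := h2 y (by simp)
      exact Even.add ⟨1, h3⟩ (ih fun z hz => h2 z (by simp [hz]))

theorem re_odd : RE (oddL A) := by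
  suffices he : oddL A = ({[]} : Language A) + lenL A 1 * evenL A by
    rw [he]; exact (RE.word []).add ((re_len 1).mul re_even)
  ext x
  constructor
  · rintro (rfl | h)
    · exact Or.inl rfl
    · right
      cases x with
      | nil => simp at h
      | cons a x =>
        refine ⟨[a], rfl, x, ?_, rfl⟩
        change Even x.length
        rw [List.length_cons] at h
        have := Nat.not_even_iff_odd.2 h
        by_contra h1
        exact this (Nat.even_add_one.2 h1)
  · rintro (rfl | ⟨y, hy, z, hz, rfl⟩)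
    · exact Or.inl rfl
    · right
      have hy : y.length = 1 := hy
      obtain ⟨k, hk⟩ : Even z.length := hz
      refine ⟨k, ?_⟩
      change (y ++ z).length = _
      rw [List.length_append]
      omega

/-! ### Expressible relations between words -/

omit [Finite A] in
theorem Ex.factor {X : Type} (w x u : X) : Ex w (fun τ : X → List A => τ x <:+: τ u) := by
  have h := Ex.ex (Y := Fin 2) (Ex.eq (A := A) (Sum.inl w) (Sum.inl u)
    [Sum.inr 0, Sum.inl x, Sum.inr 1])
  refine h.congr fun τ hτ => ?_
  constructor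
  · rintro ⟨p, s, h⟩
    refine ⟨![p, s], ?_, ?_⟩
    · have h1 := hτ u
      rw [← h] at h1
      intro y
      fin_cases y
      · exact List.IsInfix.trans ⟨[], τ x ++ s, by simp⟩ h1
      · exact List.IsInfix.trans ⟨p ++ τ x, [], by simp⟩ h1
    · simp [← h]
  · rintro ⟨ρ, -, h⟩
    refine ⟨ρ 0, ρ 1, ?_⟩
    simp at h
    simp [h]

omit [Finite A] in
theorem factor_left {x y u : List A} (h : x ++ y <:+: u) : x <:+: u :=
  List.IsInfix.trans ⟨[], y, by simp⟩ h

omit [Finite A] in
theorem factor_right {x y u : List A} (h : x ++ y <:+: u) : y <:+: u :=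
  List.IsInfix.trans ⟨x, [], by simp⟩ h

omit [Finite A] in
theorem head_factor {u : List A} (h : u ≠ []) : ∃ c, [c] <:+: u := by
  cases u with
  | nil => exact (h rfl).elim
  | cons c u => exact ⟨c, [], u, by simp⟩

/-- if `b` is nonempty then so is `x` -/
theorem Ex.imp {X : Type} (w b x : X) :
    Ex w (fun τ : X → List A => τ w ≠ [] ∧ (τ b).length ≤ 1 ∧ (τ b ≠ [] → τ x ≠ [])) := by
  have h := Ex.ex (Y := Fin 5)
    ((Ex.eq (A := A) (Sum.inl w) (Sum.inl x) [Sum.inr 0, Sum.inr 1]).and
    ((Ex.eq (A := A) (Sum.inl w) (Sum.inr 3) [Sum.inr 0, Sum.inr 2]).and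
    ((Ex.eq (A := A) (Sum.inl w) (Sum.inr 4) [Sum.inl b, Sum.inr 2]).and
    ((Ex.lang (Sum.inl w) (Sum.inr 3) (re_len (A := A) 1)).and
    ((Ex.lang (Sum.inl w) (Sum.inr 4) (re_le (A := A))).and
    (Ex.lang (Sum.inl w) (Sum.inl b) (re_le (A := A))))))))
  refine h.congr fun τ hτ => ?_
  simp only [Sum.elim_inl, Sum.elim_inr, List.flatMap_cons, List.flatMap_nil, List.append_nil]
  constructor
  · rintro ⟨hw, hb, h⟩
    obtain ⟨c, hc⟩ := head_factor hw
    cases hx : τ x with
    | nil =>
      have hb : τ b = [] := by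
        by_contra h1
        exact h h1 hx
      refine ⟨![[], [], [c], [c], [c]], ?_, ?_⟩
      · intro y
        fin_cases y <;> first | exact hc | exact List.nil_infix
      · simp [hb, mem_lenL, mem_leL]
    | cons d y =>
      have h1 := hτ x
      rw [hx] at h1
      have h2 : [d] ++ y <:+: τ w := h1
      refine ⟨![[d], y, [], [d], τ b], ?_, ?_⟩
      · intro y
        fin_cases y
        · exact factor_left h2
        · exact factor_right h2
        · exact List.nil_infix
        · exact factor_left h2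
        · exact hτ b
      · simp [mem_lenL, mem_leL, hb]
  · rintro ⟨ρ, hρ, h1, h2, h3, h4, h5, h6⟩
    have h4 : (ρ 3).length = 1 := h4
    have h5 : (ρ 4).length ≤ 1 := h5
    have h6 : (τ b).length ≤ 1 := h6
    refine ⟨?_, h6, ?_⟩
    · intro hw
      have h7 := (hρ 3).length_le
      rw [hw, h4] at h7
      simp at h7
    · intro hb hx
      have hb : (τ b).length ≠ 0 := fun h => hb (List.length_eq_zero_iff.1 h)
      have h7 : (τ x).length = 0 := by rw [hx]; rfl
      have h2 := congrArg List.length h2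
      have h3 := congrArg List.length h3
      rw [h1, List.length_append] at h7
      rw [List.length_append] at h2 h3
      omega

/-- `b` is the first letter of `u` (the empty word if `u` is empty) -/
theorem Ex.first {X : Type} (w u b : X) :
    Ex w (fun τ : X → List A => τ w ≠ [] ∧ τ b = (τ u).take 1) := by
  have h := Ex.ex (Y := Fin 6)
    ((Ex.eq (A := A) (Sum.inl w) (Sum.inl u) [Sum.inl b, Sum.inr 0, Sum.inr 1]).and
    ((Ex.eq (A := A) (Sum.inl w) (Sum.inr 2) [Sum.inl b, Sum.inr 0]).and
    ((Ex.eq (A := A) (Sum.inl w) (Sum.inr 4) [Sum.inl b, Sum.inr 3]).and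
    ((Ex.eq (A := A) (Sum.inl w) (Sum.inr 5) [Sum.inr 1, Sum.inr 3]).and
    ((Ex.lang (Sum.inl w) (Sum.inr 4) (re_len (A := A) 1)).and
    ((Ex.lang (Sum.inl w) (Sum.inr 5) (re_le (A := A))).and
    ((Ex.lang (Sum.inl w) (Sum.inr 0) (re_even (A := A))).and
    (Ex.lang (Sum.inl w) (Sum.inr 2) (re_odd (A := A))))))))))
  refine h.congr fun τ hτ => ?_
  simp only [Sum.elim_inl, Sum.elim_inr, List.flatMap_cons, List.flatMap_nil, List.append_nil]
  constructor
  · rintro ⟨hw, hb⟩
    obtain ⟨c, hc⟩ := head_factor hw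
    cases hu : τ u with
    | nil =>
      rw [hu] at hb
      have hb : τ b = [] := hb
      refine ⟨![[], [], [], [c], [c], [c]], ?_, ?_⟩
      · intro y
        fin_cases y <;> first | exact hc | exact List.nil_infix
      · simp [hb, mem_lenL, mem_leL, mem_evenL, mem_oddL]
    | cons d y =>
      rw [hu] at hb
      have hb : τ b = [d] := hb
      have h1 := hτ u
      rw [hu] at h1
      have h2 : [d] ++ y <:+: τ w := h1
      have h3 : y.take (2 * (y.length / 2)) ++ y.drop (2 * (y.length / 2)) = y :=
        List.take_append_drop _ _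
      have h4 : [d] ++ y.take (2 * (y.length / 2)) ++ y.drop (2 * (y.length / 2)) <:+: τ w := by
        rw [List.append_assoc, h3]
        exact h2
      refine ⟨![y.take (2 * (y.length / 2)), y.drop (2 * (y.length / 2)),
        [d] ++ y.take (2 * (y.length / 2)), [], [d], y.drop (2 * (y.length / 2))], ?_, ?_⟩
      · intro y
        fin_cases y
        · exact factor_right (factor_left h4)
        · exact factor_right h4
        · exact factor_left h4
        · exact List.nil_infix
        · exact factor_left h2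
        · exact factor_right h4
      · refine ⟨?_, ?_, ?_, ?_, ?_, ?_, ?_, ?_⟩
        · rw [hb]
          change d :: y = [d] ++ (y.take (2 * (y.length / 2)) ++ y.drop (2 * (y.length / 2)))
          rw [h3]
          rfl
        · rw [hb]; rfl
        · rw [hb]; rfl
        · simp
        · rfl
        · change (y.drop (2 * (y.length / 2))).length ≤ 1
          rw [List.length_drop]
          omega
        · change Even (y.take (2 * (y.length / 2))).length
          rw [List.length_take]
          exact ⟨y.length / 2, by omega⟩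
        · right
          refine ⟨y.length / 2, ?_⟩
          change (d :: y.take (2 * (y.length / 2))).length = _
          rw [List.length_cons, List.length_take]
          omega
  · rintro ⟨ρ, hρ, h1, h2, h3, h4, h5, h6, h7, h8⟩
    have h5 : (ρ 4).length = 1 := h5
    have h6 : (ρ 5).length ≤ 1 := h6
    have h7 : Even (ρ 0).length := h7
    have h3 := congrArg List.length h3
    have h4 := congrArg List.length h4
    rw [List.length_append] at h3 h4
    refine ⟨?_, ?_⟩
    · intro hw
      have h7 := (hρ 4).length_le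
      rw [hw, h5] at h7
      simp at h7
    · cases hb : τ b with
      | nil =>
        rw [hb] at h2 h3 h1
        simp only [List.nil_append, List.length_nil] at h1 h2 h3
        have h9 : ρ 0 = [] := by
          rw [h2] at h8
          rcases h8 with h8 | h8
          · exact h8
          · exact (Nat.not_odd_iff_even.2 h7 h8).elim
        have h10 : ρ 1 = [] := List.length_eq_zero_iff.1 (by omega)
        rw [h1, h9, h10]
        rfl
      | cons d y =>
        rw [hb] at h3 h1
        have h9 : y = [] := List.length_eq_zero_iff.1 (by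
          rw [List.length_cons] at h3
          omega)
        rw [h1, h9]
        rfl

/-- a relation that forces `x` to be nonempty if the universe has length at least `3` -/
theorem Ex.nonempty {X : Type} (w x : X) : ∃ N : (X → List A) → Prop, Ex w N ∧
    ∀ τ : X → List A, (∀ x, τ x <:+: τ w) → (τ x ≠ [] → N τ) ∧ (τ w = [] → N τ) ∧
      (3 ≤ (τ w).length → N τ → τ x ≠ []) := by
  have h := Ex.ex (Y := Fin 8)
    ((Ex.eq (A := A) (Sum.inl w) (Sum.inl x) [Sum.inr 0, Sum.inr 1]).and
    ((Ex.eq (A := A) (Sum.inl w) (Sum.inl w) [Sum.inr 2, Sum.inr 3, Sum.inr 0, Sum.inr 4,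
      Sum.inr 5]).and
    ((Ex.eq (A := A) (Sum.inl w) (Sum.inr 6) [Sum.inr 3, Sum.inr 0]).and
    ((Ex.eq (A := A) (Sum.inl w) (Sum.inr 7) [Sum.inr 0, Sum.inr 4]).and
    ((Ex.lang (Sum.inl w) (Sum.inr 0) (re_le (A := A))).and
    ((Ex.lang (Sum.inl w) (Sum.inr 2) (re_le (A := A))).and
    ((Ex.lang (Sum.inl w) (Sum.inr 5) (re_le (A := A))).and
    ((Ex.lang (Sum.inl w) (Sum.inr 3) (re_even (A := A))).and
    ((Ex.lang (Sum.inl w) (Sum.inr 4) (re_even (A := A))).and
    ((Ex.lang (Sum.inl w) (Sum.inr 6) (re_odd (A := A))).and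
    (Ex.lang (Sum.inl w) (Sum.inr 7) (re_odd (A := A)))))))))))))
  refine ⟨_, h, fun τ hτ => ?_⟩
  simp only [Sum.elim_inl, Sum.elim_inr, List.flatMap_cons, List.flatMap_nil, List.append_nil]
  refine ⟨?_, ?_, ?_⟩
  · intro hx
    obtain ⟨d, y, hy⟩ := List.exists_cons_of_ne_nil hx
    obtain ⟨p, s, hw⟩ := hτ x
    rw [hy] at hw
    obtain ⟨β, p', hp, hβ, hp'⟩ : ∃ β p' : List A, p = β ++ p' ∧ β.length ≤ 1 ∧
        Even p'.length := by
      refine ⟨p.take (p.length % 2), p.drop (p.length % 2), (List.take_append_drop _ _).symm,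
        ?_, ?_⟩
      · rw [List.length_take]
        omega
      · rw [List.length_drop]
        exact ⟨p.length / 2, by omega⟩
    obtain ⟨s', β', hs, hβ', hs'⟩ : ∃ s' β' : List A, y ++ s = s' ++ β' ∧ β'.length ≤ 1 ∧
        Even s'.length := by
      refine ⟨(y ++ s).take (2 * ((y ++ s).length / 2)), (y ++ s).drop (2 * ((y ++ s).length / 2)),
        (List.take_append_drop _ _).symm, ?_, ?_⟩
      · rw [List.length_drop]
        omega
      · rw [List.length_take]
        exact ⟨(y ++ s).length / 2, by omega⟩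
    have hw2 : τ w = β ++ (p' ++ ([d] ++ (s' ++ β'))) := by
      rw [← hs, ← hw, hp]
      simp
    have h1 : β ++ (p' ++ ([d] ++ (s' ++ β'))) <:+: τ w := by rw [hw2]
    refine ⟨![[d], y, β, p', s', β', p' ++ [d], [d] ++ s'], ?_, ?_⟩
    · intro z
      fin_cases z
      · exact factor_left (factor_right (factor_right h1))
      · change y <:+: τ w
        have : [d] ++ y <:+: τ w := by
          have := hτ x
          rw [hy] at this
          exact this
        exact factor_right this
      · exact factor_left h1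
      · exact factor_left (factor_right h1)
      · exact factor_left (factor_right (factor_right (factor_right h1)))
      · exact factor_right (factor_right (factor_right (factor_right h1)))
      · change p' ++ [d] <:+: τ w
        have h2 : (p' ++ [d]) ++ (s' ++ β') <:+: τ w := by
          have := factor_right h1
          rwa [← List.append_assoc] at this
        exact factor_left h2
      · change [d] ++ s' <:+: τ w
        have h2 : ([d] ++ s') ++ β' <:+: τ w := by
          have := factor_right (factor_right h1)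
          rwa [← List.append_assoc] at this
        exact factor_left h2
    · refine ⟨hy, hw2, rfl, rfl, ?_, hβ, hβ', hp', hs', ?_, ?_⟩
      · exact le_refl 1
      · right
        change Odd (p' ++ [d]).length
        rw [List.length_append]
        exact hp'.add_odd odd_one
      · right
        change Odd ([d] ++ s').length
        rw [List.length_append]
        exact odd_one.add_even hs'
  · intro hw
    have hx : τ x = [] := by
      have := hτ x
      rw [hw] at this
      exact List.infix_nil.1 this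
    refine ⟨fun _ => [], fun _ => List.nil_infix, ?_⟩
    simp [hx, hw, mem_leL, mem_evenL, mem_oddL]
  · rintro hw ⟨ρ, hρ, h1, h2, h3, h4, h5, h6, h7, h8, h9, h10, h11⟩ hx
    have h5 : (ρ 0).length ≤ 1 := h5
    have h6 : (ρ 2).length ≤ 1 := h6
    have h7 : (ρ 5).length ≤ 1 := h7
    have h8 : Even (ρ 3).length := h8
    have h9 : Even (ρ 4).length := h9
    have hd : ρ 0 = [] := by
      rw [hx] at h1
      exact (List.append_eq_nil_iff.1 h1.symm).1
    rw [hd] at h2 h3 h4
    rw [List.append_nil] at h3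
    rw [List.nil_append] at h4
    have h12 : ρ 3 = [] := by
      rw [h3] at h10
      rcases h10 with h10 | h10
      · exact h10
      · exact (Nat.not_odd_iff_even.2 h8 h10).elim
    have h13 : ρ 4 = [] := by
      rw [h4] at h11
      rcases h11 with h11 | h11
      · exact h11
      · exact (Nat.not_odd_iff_even.2 h9 h11).elim
    have h14 := congrArg List.length h2
    rw [h12, h13] at h14
    simp only [List.length_append, List.length_nil] at h14
    omega

omit [Finite A] in
theorem Ex.true {X : Type} (w : X) : Ex w (fun _ : X → List A => True) := by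
  have := Ex.all (ι := Empty) (w := w) (R := fun _ (_ : X → List A) => True) (fun i => i.elim)
  exact this.congr fun τ _ => by simp

omit [Finite A] in
theorem Ex.of_imp {X : Type} {w : X} {R : (X → List A) → Prop} (p : Prop) (h : Ex w R) :
    Ex w (fun τ => p → R τ) := by
  by_cases hp : p
  · exact h.congr fun τ _ => by simp [hp]
  · exact (Ex.true w).congr fun τ _ => by simp [hp]

omit [Finite A] in
theorem RE.one_add (P : RegularExpression A) : RE (P.matches' + ({[]} : Language A)) :=
  RE.add ⟨P, rfl⟩ (RE.word [])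

/-- The query with variables in `Unit ⊕ V` relativized to the word `u`; the word `b` tells
whether the constraints that exclude the empty word are in force. -/
def Rel {X V : Type} (w u b : X) (E : Set ((Unit ⊕ V) × List (Unit ⊕ V)))
    (C : Set ((Unit ⊕ V) × RegularExpression A)) (τ : X → List A) : Prop :=
  ∃ σ : V → List A, (∀ v, σ v <:+: τ w) ∧ (∀ v, σ v <:+: τ u) ∧
    (∀ e ∈ E, Sum.elim (fun _ => τ u) σ e.1 = e.2.flatMap (Sum.elim (fun _ => τ u) σ)) ∧
    (∀ c ∈ C, Sum.elim (fun _ => τ u) σ c.1 ∈ c.2.matches' + ({[]} : Language A)) ∧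
    (∀ c ∈ C, [] ∉ c.2.matches' → τ w ≠ [] ∧ (τ b).length ≤ 1 ∧
      (τ b ≠ [] → Sum.elim (fun _ => τ u) σ c.1 ≠ []))

theorem Ex.rel {X V : Type} [Finite V] (w u b : X) {E : Set ((Unit ⊕ V) × List (Unit ⊕ V))}
    {C : Set ((Unit ⊕ V) × RegularExpression A)} (hE : E.Finite) (hC : C.Finite) :
    Ex w (Rel w u b E C) := by
  have hE' : Finite E := hE
  have hC' : Finite C := hC
  let g : Unit ⊕ V → X ⊕ V := Sum.elim (fun _ => Sum.inl u) Sum.inr
  have hg : ∀ (τ : X → List A) (σ : V → List A) (z : Unit ⊕ V),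
      Sum.elim τ σ (g z) = Sum.elim (fun _ => τ u) σ z := by
    intro τ σ z
    cases z <;> rfl
  have h := Ex.ex (Y := V) (w := w)
    ((Ex.all (fun v : V => Ex.factor (A := A) (Sum.inl w : X ⊕ V) (Sum.inr v) (Sum.inl u))).and
    ((Ex.all (fun e : E => Ex.eq (A := A) (Sum.inl w : X ⊕ V) (g e.1.1) (e.1.2.map g))).and
    ((Ex.all (fun c : C => Ex.lang (A := A) (Sum.inl w : X ⊕ V) (g c.1.1)
      (RE.one_add c.1.2))).and
    (Ex.all (fun c : C => Ex.of_imp ([] ∉ c.1.2.matches')
      (Ex.imp (A := A) (Sum.inl w : X ⊕ V) (Sum.inl b) (g c.1.1)))))))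
  refine h.congr fun τ hτ => ?_
  simp only [Sum.elim_inl, Sum.elim_inr, hg, List.flatMap_map, Subtype.forall]
  rfl

omit [Finite A] in
theorem Rel.of_on {X V : Type} {w u b : X} {E : Set ((Unit ⊕ V) × List (Unit ⊕ V))}
    {C : Set ((Unit ⊕ V) × RegularExpression A)} {τ : X → List A} (hu : τ u = τ w)
    (hb : τ b ≠ []) (h : Rel w u b E C τ) : ∃ σ : V → List A, (∀ v, σ v <:+: τ w) ∧
    (∀ e ∈ E, Sum.elim (fun _ => τ w) σ e.1 = e.2.flatMap (Sum.elim (fun _ => τ w) σ)) ∧
    (∀ c ∈ C, Sum.elim (fun _ => τ w) σ c.1 ∈ c.2.matches') := by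
  obtain ⟨σ, h1, -, h3, h4, h5⟩ := h
  rw [hu] at h3 h4 h5
  refine ⟨σ, h1, h3, fun c hc => ?_⟩
  rcases h4 c hc with h6 | h6
  · exact h6
  · have h6 : Sum.elim (fun _ => τ w) σ c.1 = [] := h6
    by_contra h7
    rw [h6] at h7
    exact (h5 c hc h7).2.2 hb h6

omit [Finite A] in
theorem Rel.on {X V : Type} {w u b : X} {E : Set ((Unit ⊕ V) × List (Unit ⊕ V))}
    {C : Set ((Unit ⊕ V) × RegularExpression A)} {τ : X → List A} (hu : τ u = τ w)
    (hw : τ w ≠ []) (hb : (τ b).length ≤ 1) (h : ∃ σ : V → List A, (∀ v, σ v <:+: τ w) ∧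
    (∀ e ∈ E, Sum.elim (fun _ => τ w) σ e.1 = e.2.flatMap (Sum.elim (fun _ => τ w) σ)) ∧
    (∀ c ∈ C, Sum.elim (fun _ => τ w) σ c.1 ∈ c.2.matches')) : Rel w u b E C τ := by
  obtain ⟨σ, h1, h2, h3⟩ := h
  rw [← hu] at h2 h3
  refine ⟨σ, h1, by rw [hu]; exact h1, h2, fun c hc => Or.inl (h3 c hc),
    fun c hc h4 => ⟨hw, hb, fun _ h5 => ?_⟩⟩
  have := h3 c hc
  rw [h5] at this
  exact h4 this

omit [Finite A] in
theorem Rel.off {X V : Type} {w u b : X} {E : Set ((Unit ⊕ V) × List (Unit ⊕ V))}
    {C : Set ((Unit ⊕ V) × RegularExpression A)} {τ : X → List A} (hu : τ u = [])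
    (hb : τ b = []) (hw : τ w ≠ []) : Rel w u b E C τ := by
  have h : ∀ z : Unit ⊕ V, Sum.elim (fun _ => τ u) (fun _ => []) z = ([] : List A) := by
    rw [hu]
    rintro (z | z) <;> rfl
  refine ⟨fun _ => [], fun _ => List.nil_infix, fun _ => List.nil_infix, ?_, ?_, ?_⟩
  · intro e _
    simp [h]
  · intro c _
    rw [h]
    exact Or.inr rfl
  · intro c _ _
    refine ⟨hw, by simp [hb], fun h1 => (h1 hb).elim⟩

/-- definable languages -/
def Def (L : Language A) : Prop := Ex (X := Unit) () (fun τ : Unit → List A => τ () ∈ L)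

/-- the nonempty words of the union -/
def neU (L M : Language A) : Language A := {w | w ≠ [] ∧ (w ∈ L ∨ w ∈ M)}

/-- the words of length at least three -/
def geL (A : Type) : Language A := {w | 3 ≤ w.length}

/-- the words of length at most two in `L` -/
def shortL (L : Language A) : Language A := {w | w.length ≤ 2 ∧ w ∈ L}

theorem Def.union_nonempty {L M : Language A} (hL : Def L) (hM : Def M) :
    Def (neU L M) := by
  obtain ⟨V, hV, E, C, hE, hC, hL⟩ := hL
  obtain ⟨V', hV', E', C', hE', hC', hM⟩ := hM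
  have h := Ex.ex (Y := Fin 5) (w := ())
    ((Ex.eq (A := A) (Sum.inl ()) (Sum.inl ()) [Sum.inr 0, Sum.inr 1]).and
    ((Ex.eq (A := A) (Sum.inl ()) (Sum.inr 4) [Sum.inr 2, Sum.inr 3]).and
    ((Ex.lang (Sum.inl ()) (Sum.inr 4) (re_len (A := A) 1)).and
    ((Ex.first (A := A) (Sum.inl ()) (Sum.inr 0) (Sum.inr 2)).and
    ((Ex.first (A := A) (Sum.inl ()) (Sum.inr 1) (Sum.inr 3)).and
    ((Ex.rel (A := A) (Sum.inl ()) (Sum.inr 0) (Sum.inr 2) hE hC).and
    (Ex.rel (A := A) (Sum.inl ()) (Sum.inr 1) (Sum.inr 3) hE' hC')))))))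
  refine h.congr fun τ hτ => ?_
  have hL := hL τ hτ
  have hM := hM τ hτ
  have ht : τ = fun _ => τ () := rfl
  rw [ht] at hL hM
  constructor
  · rintro ⟨hw, h1⟩
    obtain ⟨d, y, hy⟩ := List.exists_cons_of_ne_nil hw
    have h2 : (τ ()).take 1 <:+: τ () := (List.take_prefix _ _).isInfix
    have h3 : (τ ()).take 1 = [d] := by rw [hy]; rfl
    rcases h1 with h1 | h1
    · refine ⟨![τ (), [], (τ ()).take 1, [], (τ ()).take 1], ?_, ?_, ?_, ?_, ?_, ?_, ?_, ?_⟩
      · intro z
        fin_cases z
        · exact List.infix_rfl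
        · exact List.nil_infix
        · exact h2
        · exact List.nil_infix
        · exact h2
      · simp
      · simp
      · change ((τ ()).take 1).length = 1
        rw [h3]; rfl
      · exact ⟨hw, rfl⟩
      · exact ⟨hw, rfl⟩
      · refine Rel.on rfl hw ?_ (hL.1 h1)
        change ((τ ()).take 1).length ≤ 1
        rw [h3]; exact le_refl 1
      · exact Rel.off rfl rfl hw
    · refine ⟨![[], τ (), [], (τ ()).take 1, (τ ()).take 1], ?_, ?_, ?_, ?_, ?_, ?_, ?_, ?_⟩
      · intro z
        fin_cases z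
        · exact List.nil_infix
        · exact List.infix_rfl
        · exact List.nil_infix
        · exact h2
        · exact h2
      · simp
      · simp
      · change ((τ ()).take 1).length = 1
        rw [h3]; rfl
      · exact ⟨hw, rfl⟩
      · exact ⟨hw, rfl⟩
      · exact Rel.off rfl rfl hw
      · refine Rel.on rfl hw ?_ (hM.1 h1)
        change ((τ ()).take 1).length ≤ 1
        rw [h3]; exact le_refl 1
  · rintro ⟨ρ, hρ, h1, h2, h3, ⟨hw, h4⟩, ⟨-, h5⟩, h6, h7⟩
    simp only [Sum.elim_inl, Sum.elim_inr, List.flatMap_cons, List.flatMap_nil,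
      List.append_nil] at h1 h2 h4 h5 hw
    have h3 : (ρ 4).length = 1 := h3
    rw [h2, List.length_append] at h3
    refine ⟨hw, ?_⟩
    by_cases h8 : ρ 2 = []
    · right
      have h9 : ρ 0 = [] := by
        rw [h8] at h4
        by_contra h
        obtain ⟨d, y, hy⟩ := List.exists_cons_of_ne_nil h
        rw [hy] at h4
        simp at h4
      have h10 : ρ 1 = τ () := by rw [h1, h9]; rfl
      refine hM.2 (Rel.of_on (w := Sum.inl ()) h10 ?_ h7)
      change ρ 3 ≠ []
      intro h
      rw [h8, h] at h3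
      simp at h3
    · left
      have h8' : (ρ 2).length ≠ 0 := fun h => h8 (List.length_eq_zero_iff.1 h)
      have h8'' : ρ 3 = [] := List.length_eq_zero_iff.1 (by omega)
      have h9 : ρ 1 = [] := by
        rw [h8''] at h5
        by_contra h
        obtain ⟨d, y, hy⟩ := List.exists_cons_of_ne_nil h
        rw [hy] at h5
        simp at h5
      have h10 : ρ 0 = τ () := by rw [h1, h9]; simp
      exact hL.2 (Rel.of_on (w := Sum.inl ()) h10 h8 h6)

theorem re_three : RE (geL A) := by
  suffices he : geL A = lenL A 3 * (evenL A + oddL A) by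
    rw [he]; exact (re_len 3).mul (re_even.add re_odd)
  ext x
  constructor
  · intro hx
    have hx : 3 ≤ x.length := hx
    refine ⟨x.take 3, ?_, x.drop 3, ?_, List.take_append_drop _ _⟩
    · change (x.take 3).length = 3
      rw [List.length_take]
      omega
    · rcases Nat.even_or_odd (x.drop 3).length with h | h
      · exact Or.inl h
      · exact Or.inr (Or.inr h)
  · rintro ⟨y, hy, z, -, rfl⟩
    have hy : y.length = 3 := hy
    change 3 ≤ (y ++ z).length
    rw [List.length_append]
    omega

theorem Def.add_empty {L : Language A} (hL : Def L) : Def (L + ({[]} : Language A)) := by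
  obtain ⟨V, hV, E, C, hE, hC, hL⟩ := hL
  have hE' : Finite E := hE
  have hC' : Finite C := hC
  choose N hN1 hN2 using fun x : Unit ⊕ V => Ex.nonempty (A := A) (Sum.inl () : Unit ⊕ V) x
  have hQ : RE (({[]} : Language A) + geL A + shortL L) :=
    ((RE.word []).add re_three).add
      (RE.fin (Set.Finite.subset (List.finite_length_le A 2) fun x (hx : x ∈ shortL L) => hx.1))
  have h := (Ex.ex (Y := V) (w := ())
    ((Ex.all (fun e : E => Ex.eq (A := A) (Sum.inl () : Unit ⊕ V) e.1.1 e.1.2)).and
    ((Ex.all (fun c : C => Ex.lang (A := A) (Sum.inl () : Unit ⊕ V) c.1.1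
      (RE.one_add c.1.2))).and
    (Ex.all (fun c : C => Ex.of_imp ([] ∉ c.1.2.matches') (hN1 c.1.1)))))).and
    (Ex.lang () () hQ)
  refine h.congr fun τ hτ => ?_
  have hs : ∀ σ : V → List A, (∀ v, σ v <:+: τ ()) → ∀ x : Unit ⊕ V,
      Sum.elim τ σ x <:+: Sum.elim τ σ (Sum.inl ()) := by
    intro σ hσ x
    rcases x with x | x
    · exact hτ x
    · exact hσ x
  constructor
  · rintro (h1 | h1)
    · obtain ⟨σ, h2, h3, h4⟩ := (hL τ hτ).1 h1
      refine ⟨⟨σ, h2, fun e => h3 e.1 e.2, fun c => Or.inl (h4 c.1 c.2), fun c hc => ?_⟩, ?_⟩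
      · refine (hN2 c.1.1 _ (hs σ h2)).1 fun h5 => hc ?_
        have := h4 c.1 c.2
        rwa [h5] at this
      · by_cases h5 : 3 ≤ (τ ()).length
        · exact Or.inl (Or.inr h5)
        · exact Or.inr ⟨by omega, h1⟩
    · have h1 : τ () = [] := h1
      have h0 : ∀ z : Unit ⊕ V, Sum.elim τ (fun _ => []) z = ([] : List A) := by
        rintro (z | z)
        · exact h1
        · rfl
      refine ⟨⟨fun _ => [], fun _ => List.nil_infix, ?_, ?_, ?_⟩, Or.inl (Or.inl h1)⟩
      · intro e
        simp [h0]
      · intro c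
        rw [h0]
        exact Or.inr rfl
      · intro c hc
        exact (hN2 c.1.1 _ (hs _ fun _ => List.nil_infix)).2.1 (h0 _)
  · rintro ⟨⟨σ, h1, h2, h3, h4⟩, (h5 | h5) | h5⟩
    · exact Or.inr h5
    · left
      refine (hL τ hτ).2 ⟨σ, h1, fun e he => h2 ⟨e, he⟩, fun c hc => ?_⟩
      rcases h3 ⟨c, hc⟩ with h6 | h6
      · exact h6
      · have h6 : Sum.elim τ σ c.1 = [] := h6
        by_contra h7
        rw [h6] at h7
        exact (hN2 c.1 _ (hs σ h1)).2.2 h5 (h4 ⟨c, hc⟩ h7) h6
    · exact Or.inl h5.2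

theorem Def.add {L M : Language A} (hL : Def L) (hM : Def M) : Def (L + M) := by
  have h := hL.union_nonempty hM
  by_cases he : [] ∈ L + M
  · have h2 := h.add_empty
    suffices hs : L + M = neU L M + ({[]} : Language A) by
      rw [hs]; exact h2
    ext x
    constructor
    · intro hx
      by_cases hx2 : x = []
      · exact Or.inr hx2
      · exact Or.inl ⟨hx2, hx⟩
    · rintro (hx | rfl)
      · exact hx.2
      · exact he
  · suffices hs : L + M = neU L M by
      rw [hs]; exact h
    ext x
    constructor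
    · intro hx
      refine ⟨?_, hx⟩
      rintro rfl
      exact he hx
    · exact fun hx => hx.2

/-! ### Queries and expressible relations -/

/-- the variables of a query -/
def vars (φ : CQ A) : List ℕ :=
  φ.eqs.map Prod.fst ++ φ.eqs.flatMap (fun e => e.2.filterMap Sum.getRight?) ++
    φ.regs.map Prod.fst

theorem cq_def (φ : CQ A) : Def (cqLang φ) := by
  classical
  let g : A ⊕ ℕ → Unit ⊕ ({x // x ∈ vars φ} ⊕ A) := Sum.elim (fun a => Sum.inr (Sum.inr a))
    (fun x => if x = 0 then Sum.inl () else if h : x ∈ vars φ then Sum.inr (Sum.inl ⟨x, h⟩)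
      else Sum.inl ())
  refine ⟨{x // x ∈ vars φ} ⊕ A, inferInstance,
    {e | e ∈ φ.eqs.map fun e => (g (Sum.inr e.1), e.2.map g)},
    {c | c ∈ φ.regs.map fun c => (g (Sum.inr c.1), c.2)} ∪
      {c | ∃ a, (∃ e ∈ φ.eqs, Sum.inl a ∈ e.2) ∧ c = (Sum.inr (Sum.inr a), .char a)},
    List.finite_toSet _, (List.finite_toSet _).union ?_, ?_⟩
  · refine Set.Finite.subset (Set.finite_range fun a : A =>
      ((Sum.inr (Sum.inr a), .char a) : (Unit ⊕ ({x // x ∈ vars φ} ⊕ A)) × RegularExpression A)) ?_
    rintro _ ⟨a, -, rfl⟩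
    exact ⟨a, rfl⟩
  · intro τ hτ
    constructor
    · rintro ⟨σ, ⟨h1, h2, h3⟩, h4⟩
      let σ' : {x // x ∈ vars φ} ⊕ A → List A := Sum.elim (fun x => σ x.1)
        (fun a => if ∃ e ∈ φ.eqs, Sum.inl a ∈ e.2 then [a] else [])
      have hg : ∀ x, (x = 0 ∨ x ∈ vars φ) → Sum.elim τ σ' (g (Sum.inr x)) = σ x := by
        intro x hx
        by_cases h0 : x = 0
        · simp [g, h0, h4]
        · have hx : x ∈ vars φ := hx.resolve_left h0
          simp [g, h0, hx, σ']
      have hga : ∀ a, (∃ e ∈ φ.eqs, Sum.inl a ∈ e.2) → Sum.elim τ σ' (g (Sum.inl a)) = [a] := by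
        intro a ha
        simp only [g, Sum.elim_inl, Sum.elim_inr, σ']
        rw [if_pos ha]
      have hval : ∀ e ∈ φ.eqs, (e.2.map g).flatMap (Sum.elim τ σ') = value σ e.2 := by
        intro e he
        rw [List.flatMap_map, value]
        apply List.flatMap_congr
        intro s hs
        cases s with
        | inl a => exact hga a ⟨e, he, hs⟩
        | inr x =>
          refine hg x (Or.inr ?_)
          simp only [vars, List.mem_append, List.mem_flatMap, List.mem_filterMap]
          exact Or.inl (Or.inr ⟨e, he, Sum.inr x, hs, rfl⟩)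
      refine ⟨σ', ?_, ?_, ?_⟩
      · rintro (x | a)
        · change σ x.1 <:+: τ ()
          rw [← h4]
          exact h1 _
        · simp only [σ', Sum.elim_inr]
          split_ifs with ha
          · obtain ⟨e, he, ha⟩ := ha
            rw [← h4]
            refine List.IsInfix.trans ?_ (h1 e.1)
            rw [h2 e he, value]
            obtain ⟨s, t, hst⟩ := List.append_of_mem ha
            refine ⟨s.flatMap (Sum.elim (fun a => [a]) σ), t.flatMap (Sum.elim (fun a => [a]) σ), ?_⟩
            rw [hst]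
            simp
          · exact List.nil_infix
      · intro e he
        obtain ⟨e, he', rfl⟩ := List.mem_map.1 he
        change Sum.elim τ σ' (g (Sum.inr e.1)) = (e.2.map g).flatMap (Sum.elim τ σ')
        rw [hval e he', hg, h2 e he']
        right
        simp only [vars, List.mem_append, List.mem_map]
        exact Or.inl (Or.inl ⟨e, he', rfl⟩)
      · rintro c (hc | ⟨a, ha, rfl⟩)
        · obtain ⟨c, hc', rfl⟩ := List.mem_map.1 hc
          change Sum.elim τ σ' (g (Sum.inr c.1)) ∈ _
          rw [hg]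
          · exact h3 c hc'
          · right
            simp only [vars, List.mem_append, List.mem_map]
            exact Or.inr ⟨c, hc', rfl⟩
        · change Sum.elim τ σ' (g (Sum.inl a)) ∈ _
          rw [hga a ha]
          rfl
    · rintro ⟨σ', h1, h2, h3⟩
      refine ⟨fun x => Sum.elim τ σ' (g (Sum.inr x)), ⟨?_, ?_, ?_⟩, ?_⟩
      · intro x
        have : Sum.elim τ σ' (g (Sum.inr 0)) = τ () := by simp [g]
        simp only [this]
        rcases hz : g (Sum.inr x) with z | z
        · exact hτ z
        · exact h1 z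
      · intro e he
        have h4 := h2 _ (List.mem_map.2 ⟨e, he, rfl⟩)
        simp only at h4
        change Sum.elim τ σ' (g (Sum.inr e.1)) = _
        rw [h4, List.flatMap_map, value]
        apply List.flatMap_congr
        intro s hs
        cases s with
        | inl a =>
          have h5 := h3 _ (Or.inr ⟨a, ⟨e, he, hs⟩, rfl⟩)
          exact h5
        | inr x => rfl
      · intro c hc
        exact h3 _ (Or.inl (List.mem_map.2 ⟨c, hc, rfl⟩))
      · simp [g]

omit [Finite A] in
theorem def_cq {L : Language A} (h : Def L) : ∃ φ : CQ A, cqLang φ = L := by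
  classical
  obtain ⟨V, hV, E, C, hE, hC, h⟩ := h
  obtain ⟨f⟩ : Nonempty (V ↪ ℕ) := by
    obtain ⟨n, ⟨e⟩⟩ := Finite.exists_equiv_fin V
    exact ⟨e.toEmbedding.trans ⟨Fin.val, Fin.val_injective⟩⟩
  let g : Unit ⊕ V → ℕ := Sum.elim (fun _ => 0) (fun v => f v + 1)
  have hg : Function.Injective g := by
    rintro (x | x) (y | y) hxy
    · rfl
    · simp [g] at hxy
    · simp [g] at hxy
    · simp only [g, Sum.elim_inr, Nat.add_right_cancel_iff] at hxy
      rw [f.injective hxy]
  refine ⟨⟨hE.toFinset.toList.map fun e => (g e.1, e.2.map fun x => Sum.inr (g x)),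
    hC.toFinset.toList.map fun c => (g c.1, c.2)⟩, ?_⟩
  ext w
  have key : ∀ (σ : ℕ → List A) (l : List (Unit ⊕ V)),
      value σ (l.map fun x => Sum.inr (g x)) = l.flatMap fun x => σ (g x) := by
    intro σ l
    rw [value, List.flatMap_map]
    rfl
  have h' := h (fun _ => w) (fun _ => List.infix_rfl)
  constructor
  · rintro ⟨σ, ⟨h1, h2, h3⟩, rfl⟩
    have hσ : Sum.elim (fun _ : Unit => σ 0) (fun v => σ (f v + 1)) = fun x => σ (g x) := by
      funext x
      cases x <;> rfl
    refine h'.2 ⟨fun v => σ (f v + 1), fun v => h1 _, ?_, ?_⟩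
    · intro e he
      have := h2 _ (List.mem_map.2 ⟨e, by simpa using he, rfl⟩)
      simp only [key] at this
      rw [hσ]
      exact this
    · intro c hc
      rw [hσ]
      exact h3 _ (List.mem_map.2 ⟨c, by simpa using hc, rfl⟩)
  · intro hw
    obtain ⟨σ, h1, h2, h3⟩ := h'.1 hw
    have hx : ∀ x, Function.extend g (Sum.elim (fun _ => w) σ) (fun _ => w) (g x) =
        Sum.elim (fun _ => w) σ x := fun x => hg.extend_apply _ _ x
    have h0 : Function.extend g (Sum.elim (fun _ => w) σ) (fun _ => w) 0 = w := hx (Sum.inl ())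
    refine ⟨Function.extend g (Sum.elim (fun _ => w) σ) (fun _ => w), ⟨?_, ?_, ?_⟩, h0⟩
    · intro n
      rw [h0]
      by_cases hn : ∃ x, g x = n
      · obtain ⟨x, rfl⟩ := hn
        rw [hx]
        rcases x with x | x
        · exact List.infix_rfl
        · exact h1 x
      · rw [Function.extend_apply' _ _ _ hn]
    · intro e he
      obtain ⟨e, he', rfl⟩ := List.mem_map.1 he
      have he' : e ∈ E := by simpa using he'
      simp only [key, hx]
      exact h2 e he'
    · intro c hc
      obtain ⟨c, hc', rfl⟩ := List.mem_map.1 hc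
      have hc' : c ∈ C := by simpa using hc'
      simp only [hx]
      exact h3 c hc'

theorem exists_cq (Φ : List (CQ A)) : ∃ φ : CQ A, cqLang φ = ucqLang Φ := by
  apply def_cq
  induction Φ with
  | nil =>
    have h := Ex.lang (A := A) (X := Unit) () () (L := 0) ⟨0, rfl⟩
    refine h.congr fun τ _ => ?_
    constructor
    · rintro ⟨φ, hφ, -⟩
      simp at hφ
    · intro h
      exact (Language.notMem_zero _ h).elim
  | cons φ Φ ih =>
    have h := (cq_def φ).add ih
    suffices hs : ucqLang (φ :: Φ) = cqLang φ + ucqLang Φ by rw [hs]; exact h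
    ext w
    constructor
    · rintro ⟨ψ, hψ, hw⟩
      rcases List.mem_cons.1 hψ with rfl | hψ
      · exact Or.inl hw
      · exact Or.inr ⟨ψ, hψ, hw⟩
    · rintro (hw | ⟨ψ, hψ, hw⟩)
      · exact ⟨φ, by simp, hw⟩
      · exact ⟨ψ, by simp [hψ], hw⟩

/-- The languages of FC[REG]-CQs are exactly the languages of FC[REG]-UCQs; in particular they are
closed under finite union. -/
theorem result (A : Type) [Finite A] :
    {L : Language A | ∃ φ : CQ A, cqLang φ = L} =
      {L : Language A | ∃ Φ : List (CQ A), ucqLang Φ = L} ∧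
    ∀ φ₁ φ₂ : CQ A, ∃ φ : CQ A, cqLang φ = cqLang φ₁ + cqLang φ₂ := by
  constructor
  · ext L
    constructor
    · rintro ⟨φ, rfl⟩
      refine ⟨[φ], ?_⟩
      ext w
      constructor
      · rintro ⟨ψ, hψ, hw⟩
        rw [List.mem_singleton.1 hψ] at hw
        exact hw
      · intro hw
        exact ⟨φ, by simp, hw⟩
    · rintro ⟨Φ, rfl⟩
      exact exists_cq Φ
  · intro φ₁ φ₂
    exact def_cq ((cq_def φ₁).add (cq_def φ₂))

end Pool.Agent.Results.MP_c07d1e_lc.UnionClosure
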